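import Pool.Agent.Helper11.DR.EndPsi
import Pool.Agent.Helper96.DR.P3

/-!
MP_a499ba_nt (Q1, Q2).  The sums of Moebius and Liouville twisted by the primitive real characters.  For almost all
primitive real characters `χ ≠ 1`, ordered by the conductor `N`, neither sum divided by `√x` has an upper limit below
`(log log N)^(1/4-δ)`, nor a lower limit above `-(log log N)^(1/4-δ)` (the latter if `L(s, χ)` has no zero in `[1/2, 1)`).
-/

namespace Pool.Agent.Helper11.Keep.QuadraticTwists1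

open Filter Topology

/-- `M(x, χ) = ∑_{n ≤ x} μ(n) χ(n)` (`χ` is real below) -/
noncomputable def M {N : ℕ} (χ : DirichletCharacter ℂ N) (x : ℝ) : ℝ :=
  ∑ n ∈ Finset.Icc 1 ⌊x⌋₊, (ArithmeticFunction.moebius n : ℝ) * (χ n).re

/-- `L(x, χ) = ∑_{n ≤ x} λ(n) χ(n)`, `λ(n) = (-1)^Ω(n)` -/
noncomputable def L {N : ℕ} (χ : DirichletCharacter ℂ N) (x : ℝ) : ℝ :=
  ∑ n ∈ Finset.Icc 1 ⌊x⌋₊, (-1 : ℝ) ^ ArithmeticFunction.cardFactors n * (χ n).re

/-- `L(s, χ)` has a real zero `β`, `1/2 ≤ β < 1`. -/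
def RealZero {N : ℕ} (χ : DirichletCharacter ℂ N) : Prop :=
  ∃ (_ : NeZero N) (β : ℝ), 1 / 2 ≤ β ∧ β < 1 ∧ DirichletCharacter.LFunction χ β = 0

/-- `F x > C √x` for arbitrarily large `x`. -/
def High (F : ℝ → ℝ) (C : ℝ) : Prop := ∀ x₀ : ℝ, ∃ x : ℝ, x₀ ≤ x ∧ C * Real.sqrt x < F x

/-- `F x < -C √x` for arbitrarily large `x`. -/
def Low (F : ℝ → ℝ) (C : ℝ) : Prop := ∀ x₀ : ℝ, ∃ x : ℝ, x₀ ≤ x ∧ F x < -(C * Real.sqrt x)

/-- The property of the character `χ`. -/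
def Oscillates (C : ℝ) {N : ℕ} (χ : DirichletCharacter ℂ N) : Prop :=
  High (M χ) C ∧ High (L χ) C ∧ (Low (M χ) C ∧ Low (L χ) C ∨ RealZero χ)

/-- The primitive real characters `χ ≠ 1` of conductor `N ≤ X`, as pairs `(N, χ)`. -/
def R (X : ℕ) : Set ((N : ℕ) × DirichletCharacter ℂ N) :=
  {x | 1 ≤ x.1 ∧ x.1 ≤ X ∧ x.2.IsPrimitive ∧ x.2 ^ 2 = 1 ∧ x.2 ≠ 1}

/-- For every `δ ∈ (0, 1/4)` the characters `χ` with `Oscillates ((log log N)^(1/4-δ)) χ` have density `1` among all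
primitive real characters, ordered by the conductor `N`. -/
theorem result (δ : ℝ) (hδ : 0 < δ) (hδ' : δ < 1 / 4) :
    Tendsto (fun X : ℕ => ({x ∈ R X | Oscillates (Real.log (Real.log x.1) ^ (1 / 4 - δ)) x.2}.ncard : ℝ) /
      ((R X).ncard : ℝ)) atTop (𝓝 1) :=
  Pool.Agent.Helper11.DR.density_all Pool.Agent.Helper96.DR.core_M Pool.Agent.Helper96.DR.core_L hδ hδ'

end Pool.Agent.Helper11.Keep.QuadraticTwists1
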